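import Pool.Agent.Helper42.QC.Defs

/-!
# NRM: the norm of GL_2 of a cyclic division algebra
-/

namespace Pool.Agent.Helper42.QC

open Pool.Agent.Helper42.QD

section

variable {K D : Type} [Field K] [DivisionRing D] (c : CD K D)

theorem nrm_dpos : 0 < c.d := lt_of_lt_of_le two_pos c.d2

theorem nrm_add (y z : D) : c.co (y + z) = c.co y + c.co z := by
  symm
  apply c.co_uniq
  · intro i hi
    simp [c.co_zero y i hi, c.co_zero z i hi]
  · conv_lhs => rw [c.co_spec y, c.co_spec z]
    rw [← Finset.sum_add_distrib]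
    refine Finset.sum_congr rfl fun i _ => ?_
    rw [Pi.add_apply, map_add, add_mul]

/-- coordinates as an additive homomorphism -/
noncomputable def nrmCo : D →+ (ℕ → K) where
  toFun := c.co
  map_zero' := by
    have h := nrm_add c 0 0
    rw [add_zero] at h
    exact left_eq_add.1 h
  map_add' := nrm_add c

theorem nrm_zero : c.co 0 = 0 := (nrmCo c).map_zero

theorem nrm_smul (a : K) (y : D) (i : ℕ) : c.co (c.emb a * y) i = a * c.co y i := by
  have h : (fun i => a * c.co y i) = c.co (c.emb a * y) := by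
    apply c.co_uniq
    · intro i hi
      rw [c.co_zero y i hi, mul_zero]
    · conv_lhs => rw [c.co_spec y]
      rw [Finset.mul_sum]
      refine Finset.sum_congr rfl fun i _ => ?_
      rw [map_mul, mul_assoc]
  exact (congrFun h i).symm

theorem nrm_pow (i : ℕ) (hi : i < c.d) (j : ℕ) : c.co (c.T ^ i) j = if j = i then 1 else 0 := by
  have h : (fun j => if j = i then (1 : K) else 0) = c.co (c.T ^ i) := by
    apply c.co_uniq
    · intro j hj
      have : j ≠ i := by omega
      simp [this]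
    · rw [Finset.sum_eq_single i]
      · simp
      · intro j _ hj
        simp [hj]
      · intro h
        exact absurd (Finset.mem_range.2 hi) h
  exact (congrFun h j).symm

/-- coordinates of `T * y` -/
theorem nrm_T (y : D) (i : ℕ) : c.co (c.T * y) i =
    if i = 0 then c.sig (c.co y (c.d - 1)) * c.pi
    else if i < c.d then c.sig (c.co y (i - 1)) else 0 := by
  have hd := nrm_dpos c
  obtain ⟨e, he⟩ : ∃ e, c.d = e + 1 := ⟨c.d - 1, by omega⟩
  have h : (fun i => if i = 0 then c.sig (c.co y (c.d - 1)) * c.pi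
    else if i < c.d then c.sig (c.co y (i - 1)) else 0) = c.co (c.T * y) := by
    apply c.co_uniq
    · intro i hi
      have h1 : i ≠ 0 := by omega
      have h2 : ¬ i < c.d := by omega
      simp [h1, h2]
    · conv_lhs => rw [c.co_spec y]
      rw [Finset.mul_sum, he, Finset.sum_range_succ, Finset.sum_range_succ', add_comm]
      have hT : c.T ^ (e + 1) = c.emb c.pi := by rw [← he]; exact c.Tpow
      rw [add_comm]
      congr 1
      · refine Finset.sum_congr rfl fun i hi => ?_
        have hi' := Finset.mem_range.1 hi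
        have h1 : i + 1 < e + 1 := by omega
        simp only [Nat.add_one_ne_zero, if_false, h1, if_true, Nat.add_sub_cancel]
        rw [← mul_assoc, c.Tmul, mul_assoc, ← pow_succ']
      · simp only [if_true, Nat.add_sub_cancel, pow_zero, mul_one]
        rw [← mul_assoc, c.Tmul, mul_assoc, ← pow_succ', hT, map_mul]
  exact (congrFun h i).symm

theorem nrm_diag (y : D) : ∀ i, i < c.d → c.co (c.T ^ i * y) i = c.sig^[i] (c.co y 0) := by
  intro i
  induction i with
  | zero => intro _; simp
  | succ i ih =>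
    intro hi
    rw [pow_succ', mul_assoc, nrm_T, if_neg (Nat.succ_ne_zero i), if_pos hi, Nat.add_sub_cancel,
      ih (by omega), Function.iterate_succ_apply']

theorem nrm_inPi (m : ℕ) (y : D) (hy : c.InPi m y) : ∀ i, c.InPi m (c.T ^ i * y) := by
  intro i
  induction i with
  | zero => simpa using hy
  | succ i ih =>
    intro j
    rw [pow_succ', mul_assoc, nrm_T]
    have hs : ∀ x : K, c.sig x / c.pi ^ m = c.sig (x / c.pi ^ m) := by
      intro x
      rw [map_div₀, map_pow, c.sigpi]
    split_ifs with h1 h2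
    · rw [mul_div_right_comm, hs]
      exact c.A.mul_mem (c.sigA _ (ih _)) c.piA
    · rw [hs]
      exact c.sigA _ (ih _)
    · rw [zero_div]
      exact c.A.zero_mem

/-- the regular representation -/
noncomputable def nrmR : D →+* Matrix (Fin c.d) (Fin c.d) K where
  toFun y := Matrix.of fun i j => c.co (c.T ^ (i : ℕ) * y) j
  map_one' := by
    ext i j
    rw [Matrix.of_apply, mul_one, nrm_pow c i i.2, Matrix.one_apply]
    by_cases h : i = j
    · subst h; simp
    · have : (j : ℕ) ≠ i := fun h' => h (Fin.ext h'.symm)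
      simp [h, this]
  map_zero' := by
    ext i j
    simp [nrm_zero]
  map_add' y z := by
    ext i j
    simp [mul_add, nrm_add]
  map_mul' y z := by
    ext i j
    rw [Matrix.mul_apply]
    simp only [Matrix.of_apply]
    have h1 : c.T ^ (i : ℕ) * (y * z) =
        ∑ l ∈ Finset.range c.d, c.emb (c.co (c.T ^ (i : ℕ) * y) l) * (c.T ^ l * z) := by
      conv_lhs => rw [← mul_assoc, c.co_spec (c.T ^ (i : ℕ) * y), Finset.sum_mul]
      refine Finset.sum_congr rfl fun l _ => ?_
      rw [mul_assoc]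
    have h2 : c.co (c.T ^ (i : ℕ) * (y * z)) =
        ∑ l ∈ Finset.range c.d, c.co (c.emb (c.co (c.T ^ (i : ℕ) * y) l) * (c.T ^ l * z)) := by
      rw [h1]
      exact map_sum (nrmCo c) _ _
    rw [h2, Finset.sum_apply, ← Fin.sum_univ_eq_sum_range
      (fun l => c.co (c.emb (c.co (c.T ^ (i : ℕ) * y) l) * (c.T ^ l * z)) (j : ℕ))]
    refine Finset.sum_congr rfl fun l _ => ?_
    rw [nrm_smul]

theorem nrmR_apply (y : D) (i j : Fin c.d) : nrmR c y i j = c.co (c.T ^ (i : ℕ) * y) j := rfl

/-- two by two matrices -/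
noncomputable def nrmM : Matrix (Fin 2) (Fin 2) D →+* Matrix (Fin 2 × Fin c.d) (Fin 2 × Fin c.d) K :=
  (Matrix.compRingEquiv (Fin 2) (Fin c.d) K).toRingHom.comp (nrmR c).mapMatrix

theorem nrmM_apply (g : Matrix (Fin 2) (Fin 2) D) (a b : Fin 2 × Fin c.d) :
    nrmM c g a b = c.co (c.T ^ (a.2 : ℕ) * g a.1 b.1) b.2 := rfl

/-- the norm -/
noncomputable def nrmN : G2 D →* Kˣ :=
  Units.map (Matrix.detMonoidHom.comp (nrmM c).toMonoidHom)

theorem nrmN_apply (g : G2 D) : (nrmN c g : K) = (nrmM c g.val).det := rfl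

theorem nrm_T_ne_zero : c.T ≠ 0 := by
  intro h
  have h1 := c.Tpow
  rw [h, zero_pow (nrm_dpos c).ne'] at h1
  have h2 : c.emb c.pi = c.emb 0 := by rw [← h1, map_zero]
  exact c.pine (c.emb.injective h2)

theorem nrm_T_ne_one : c.T ≠ 1 := by
  intro h
  have h1 := c.Tpow
  rw [h, one_pow] at h1
  have h2 : c.emb c.pi = c.emb 1 := by rw [← h1, map_one]
  have h3 : c.pi = 1 := c.emb.injective h2
  apply c.pinv
  rw [h3, inv_one]
  exact c.A.one_mem

theorem nrm_nn (b : D) : nrmN c (nn b) = 1 := by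
  have hT := nrm_T_ne_zero c
  have h1 : c.T - 1 ≠ 0 := sub_ne_zero.2 (nrm_T_ne_one c)
  set b0 : D := (c.T - 1)⁻¹ * b with hb0
  have hb : c.T * b0 = b + b0 := by
    have : (c.T - 1) * b0 = b := by rw [hb0, mul_inv_cancel_left₀ h1]
    rw [sub_mul, one_mul, sub_eq_iff_eq_add] at this
    exact this
  have h2 := dg_nn hT (one_ne_zero (α := D)) b0
  rw [inv_one, mul_one, hb, nn_add] at h2
  have h3 := congrArg (nrmN c) h2
  rw [map_mul, map_mul, map_mul] at h3
  have h4 : nrmN c (nn b) * (nrmN c (nn b0) * nrmN c (dg c.T 1)) =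
      1 * (nrmN c (nn b0) * nrmN c (dg c.T 1)) := by
    rw [← mul_assoc, ← h3, one_mul, mul_comm]
  exact mul_right_cancel h4

end

theorem st_NRM : ST_NRM := by
  intro K D _ _ c
  refine ⟨nrmN c, nrm_nn c, ?_⟩
  intro m g hg
  have hpm : c.pi ^ m ≠ 0 := pow_ne_zero _ c.pine
  -- the matrix over `A`
  let Y : Matrix (Fin 2 × Fin c.d) (Fin 2 × Fin c.d) c.A :=
    Matrix.of fun a b => ⟨c.co (c.T ^ (a.2 : ℕ) * (g.val - 1) a.1 b.1) b.2 / c.pi ^ m,
      nrm_inPi c m _ (hg a.1 b.1) _ _⟩
  let r : c.A := ⟨c.pi, c.piA⟩ ^ m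
  have hr : (r : K) = c.pi ^ m := by simp [r]
  have hY : c.A.subtype.mapMatrix (1 + r • Y) = nrmM c g.val := by
    have h1 : nrmM c g.val = 1 + nrmM c (g.val - 1) := by
      rw [map_sub, map_one]
      abel
    rw [h1]
    ext a b
    simp only [RingHom.mapMatrix_apply, Matrix.map_apply, Matrix.add_apply, Matrix.smul_apply,
      smul_eq_mul, map_add, map_mul]
    congr 1
    · rw [Matrix.one_apply, Matrix.one_apply]
      split_ifs <;> simp
    · rw [nrmM_apply]
      change (r : K) * (c.co (c.T ^ (a.2 : ℕ) * (g.val - 1) a.1 b.1) b.2 / c.pi ^ m) = _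
      rw [hr, mul_div_cancel₀ _ hpm]
  have hdet : (nrmN c g : K) = ((1 + r • Y).det : c.A) := by
    rw [nrmN_apply, ← hY, ← RingHom.map_det]
    rfl
  have htr : (Y.trace : K) * c.pi ^ m = ∑ j ∈ Finset.range c.d,
        c.sig^[j] (c.co ((g.val - 1) 0 0 + (g.val - 1) 1 1) 0) := by
    have hs : ∀ (j : ℕ) (x y : K), c.sig^[j] (x + y) = c.sig^[j] x + c.sig^[j] y := by
      intro j
      induction j with
      | zero => intro x y; rfl
      | succ j ih => intro x y; rw [Function.iterate_succ_apply', ih, map_add,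
          Function.iterate_succ_apply', Function.iterate_succ_apply']
    rw [Matrix.trace, ← Fin.sum_univ_eq_sum_range
      (fun j => c.sig^[j] (c.co ((g.val - 1) 0 0 + (g.val - 1) 1 1) 0)), Fintype.sum_prod_type,
      Fin.sum_univ_two]
    simp only [Matrix.diag_apply]
    rw [Subring.coe_add, AddSubmonoidClass.coe_finset_sum, AddSubmonoidClass.coe_finset_sum, add_mul,
      Finset.sum_mul, Finset.sum_mul, ← Finset.sum_add_distrib]
    refine Finset.sum_congr rfl fun j _ => ?_
    change c.co (c.T ^ (j : ℕ) * (g.val - 1) 0 0) j / c.pi ^ m * c.pi ^ m +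
      c.co (c.T ^ (j : ℕ) * (g.val - 1) 1 1) j / c.pi ^ m * c.pi ^ m = _
    rw [div_mul_cancel₀ _ hpm, div_mul_cancel₀ _ hpm, nrm_diag c _ j j.2, nrm_diag c _ j j.2,
      nrm_add, Pi.add_apply, hs]
  rw [hdet, Matrix.det_one_add_smul]
  have hfin : (((1 + Y.trace * r + Polynomial.eval r (Matrix.det (1 + (Polynomial.X : Polynomial c.A) •
      Y.map Polynomial.C)).divX.divX * r ^ 2 : c.A) : K) - 1 - ∑ j ∈ Finset.range c.d,
        c.sig^[j] (c.co ((g.val - 1) 0 0 + (g.val - 1) 1 1) 0)) / c.pi ^ (2 * m) =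
      (Polynomial.eval r (Matrix.det (1 + (Polynomial.X : Polynomial c.A) •
      Y.map Polynomial.C)).divX.divX : c.A) := by
    rw [← htr, div_eq_iff (pow_ne_zero _ c.pine)]
    push_cast
    rw [hr]
    ring
  rw [hfin]
  exact Subtype.coe_prop _

end Pool.Agent.Helper42.QC
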